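import Mathlib

/-!
# MP_285f62_co : `G(2)` and `G(3)` may have triangle factors although `G` has none

The graph on nine vertices: `K₅` on `0,…,4`, `K₄` on `5,…,8`, and the two edges `05`, `06`.
-/

namespace Pool.Agent.Results.MP_285f62_co.NineVertexCounterexample

open SimpleGraph

/-- `G` has a triangle factor: there is a set `P` of triangles of `G` such that each vertex lies in
exactly one member of `P`. -/
def HasTriangleFactor {V : Type*} [DecidableEq V] (G : SimpleGraph V) : Prop :=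
  ∃ P : Finset (Finset V), (∀ S ∈ P, G.IsNClique 3 S) ∧ ∀ v : V, ∃! S, S ∈ P ∧ v ∈ S

/-- The blow-up `G(t)`. -/
def blowup {V : Type*} (G : SimpleGraph V) (t : ℕ) : SimpleGraph (V × Fin t) where
  Adj x y := G.Adj x.1 y.1
  symm := ⟨fun _ _ h => h.symm⟩
  loopless := ⟨fun _ h => G.loopless.irrefl _ h⟩

instance {V : Type*} (G : SimpleGraph V) [DecidableRel G.Adj] (t : ℕ) :
    DecidableRel (blowup G t).Adj :=
  fun x y => inferInstanceAs (Decidable (G.Adj x.1 y.1))

/-- The counterexample. -/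
def G₉ : SimpleGraph (Fin 9) where
  Adj u v := u ≠ v ∧ ((u.1 < 5 ∧ v.1 < 5) ∨ (5 ≤ u.1 ∧ 5 ≤ v.1) ∨
    (u = 0 ∧ (v = 5 ∨ v = 6)) ∨ (v = 0 ∧ (u = 5 ∨ u = 6)))
  symm := ⟨by
    rintro u v ⟨h, h'⟩
    refine ⟨h.symm, ?_⟩
    tauto⟩
  loopless := ⟨by rintro u ⟨h, _⟩; exact h rfl⟩

instance : DecidableRel G₉.Adj := fun u v => by
  unfold G₉; infer_instance

/-- A factor given by a map all of whose fibres are triangles. -/
lemma factor_of_map {V : Type*} [DecidableEq V] [Fintype V] {G : SimpleGraph V} {k : ℕ}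
    (c : V → Fin k) (h : ∀ i, G.IsNClique 3 (Finset.univ.filter fun v => c v = i)) :
    HasTriangleFactor G := by
  refine ⟨Finset.univ.image fun i => Finset.univ.filter fun v => c v = i, ?_, ?_⟩
  · intro S hS
    obtain ⟨i, _, rfl⟩ := Finset.mem_image.1 hS
    exact h i
  · intro v
    refine ⟨Finset.univ.filter fun w => c w = c v, ⟨?_, ?_⟩, ?_⟩
    · exact Finset.mem_image.2 ⟨c v, Finset.mem_univ _, rfl⟩
    · simp
    · rintro S ⟨hS, hv⟩
      obtain ⟨i, _, rfl⟩ := Finset.mem_image.1 hS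
      rw [Finset.mem_filter] at hv
      rw [hv.2]

/-- Triangle factors of blow-ups, given by a map with triangles as fibres. -/
def Fact {V : Type*} [DecidableEq V] [Fintype V] (G : SimpleGraph V) : Prop :=
  ∃ (k : ℕ) (c : V → Fin k), ∀ i, G.IsNClique 3 (Finset.univ.filter fun v => c v = i)

lemma fiber_clique {V : Type*} [DecidableEq V] [Fintype V] {G : SimpleGraph V} {a b k l : ℕ}
    (c : V × Fin a → Fin k) (c' : V × Fin b → Fin l) (g : Fin a → Fin b)
    (hg : Function.Injective g) (i : Fin k) (i' : Fin l)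
    (h : (blowup G a).IsNClique 3 (Finset.univ.filter fun v => c v = i))
    (hc : ∀ v j, c' (v, j) = i' ↔ ∃ j', g j' = j ∧ c (v, j') = i) :
    (blowup G b).IsNClique 3 (Finset.univ.filter fun v => c' v = i') := by
  have e : (Finset.univ.filter fun v => c' v = i') =
      (Finset.univ.filter fun v => c v = i).image (fun x => (x.1, g x.2)) := by
    ext ⟨v, j⟩
    simp only [Finset.mem_filter, Finset.mem_univ, true_and, Finset.mem_image, Prod.exists,
      Prod.mk.injEq]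
    rw [hc]
    constructor
    · rintro ⟨j', h1, h2⟩
      exact ⟨v, j', h2, rfl, h1⟩
    · rintro ⟨v', j', h1, rfl, h2⟩
      exact ⟨j', h2, h1⟩
  rw [e]
  rw [isNClique_iff] at h ⊢
  refine ⟨?_, ?_⟩
  · intro x hx y hy hxy
    rw [Finset.mem_coe, Finset.mem_image] at hx hy
    obtain ⟨x', hx', rfl⟩ := hx
    obtain ⟨y', hy', rfl⟩ := hy
    have hne : x' ≠ y' := by rintro rfl; exact hxy rfl
    exact h.1 (Finset.mem_coe.2 hx') (Finset.mem_coe.2 hy') hne
  · rw [Finset.card_image_of_injective, h.2]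
    rintro ⟨v, j⟩ ⟨v', j'⟩ h
    simp only [Prod.mk.injEq] at h ⊢
    exact ⟨h.1, hg h.2⟩

/-- Blow-up factors can be added. -/
lemma fact_add {V : Type*} [DecidableEq V] [Fintype V] {G : SimpleGraph V} {a b : ℕ}
    (ha : Fact (blowup G a)) (hb : Fact (blowup G b)) : Fact (blowup G (a + b)) := by
  obtain ⟨k, c, hc⟩ := ha
  obtain ⟨l, d, hd⟩ := hb
  refine ⟨k + l, fun x => Fin.addCases (fun j => Fin.castAdd l (c (x.1, j)))
    (fun j => Fin.natAdd k (d (x.1, j))) x.2, ?_⟩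
  intro i
  induction i using Fin.addCases with
  | left i =>
    refine fiber_clique c _ (Fin.castAdd b) (Fin.castAdd_injective _ _) i _ (hc i) ?_
    intro v j
    induction j using Fin.addCases with
    | left j =>
      simp only [Fin.addCases_left]
      constructor
      · intro h
        exact ⟨j, rfl, Fin.castAdd_injective _ _ h⟩
      · rintro ⟨j', h1, h2⟩
        rw [Fin.castAdd_injective _ _ h1] at h2
        rw [h2]
    | right j =>
      simp only [Fin.addCases_right]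
      constructor
      · intro h
        have := congrArg Fin.val h
        simp at this
        have := i.2
        omega
      · rintro ⟨j', h1, h2⟩
        have := congrArg Fin.val h1
        simp at this
        have := j'.2
        omega
  | right i =>
    refine fiber_clique d _ (Fin.natAdd a) (Fin.natAdd_injective _ _) i _ (hd i) ?_
    intro v j
    induction j using Fin.addCases with
    | left j =>
      simp only [Fin.addCases_left]
      constructor
      · intro h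
        have := congrArg Fin.val h
        simp at this
        have := (c (v, j)).2
        omega
      · rintro ⟨j', h1, h2⟩
        have := congrArg Fin.val h1
        simp at this
        have := j.2
        omega
    | right j =>
      simp only [Fin.addCases_right]
      constructor
      · intro h
        exact ⟨j, rfl, Fin.natAdd_injective _ _ h⟩
      · rintro ⟨j', h1, h2⟩
        rw [Fin.natAdd_injective _ _ h1] at h2
        rw [h2]

/-- The map for `t = 2`. -/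
def c2 (x : Fin 9 × Fin 2) : Fin 6 :=
  (![![2, 3], ![3, 4], ![3, 5], ![4, 5], ![4, 5], ![0, 2], ![1, 2], ![0, 1], ![0, 1]] :
    Fin 9 → Fin 2 → Fin 6) x.1 x.2

/-- The map for `t = 3`. -/
def c3 (x : Fin 9 × Fin 3) : Fin 9 :=
  (![![4, 5, 6], ![4, 5, 7], ![4, 5, 8], ![6, 7, 8], ![6, 7, 8], ![0, 1, 3], ![0, 2, 3],
    ![0, 1, 2], ![1, 2, 3]] : Fin 9 → Fin 3 → Fin 9) x.1 x.2

lemma fact2 : Fact (blowup G₉ 2) := ⟨6, c2, by decide +kernel⟩

lemma fact3 : Fact (blowup G₉ 3) := ⟨9, c3, by decide +kernel⟩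

lemma fact_all {V : Type*} [DecidableEq V] [Fintype V] {G : SimpleGraph V}
    (h2 : Fact (blowup G 2)) (h3 : Fact (blowup G 3)) (t : ℕ) : Fact (blowup G (t + 2)) := by
  induction t using Nat.strong_induction_on with
  | _ t ih =>
    match t, ih with
    | 0, _ => exact h2
    | 1, _ => exact h3
    | t + 2, ih => exact fact_add (ih t (by omega)) h2

/-- In a factor every vertex `v` has its triangle `{v, a, b}`, and triangles are disjoint. -/
lemma factor_triangles {n : ℕ} {G : SimpleGraph (Fin n)} (h : HasTriangleFactor G) :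
    ∃ a b : Fin n → Fin n, (∀ v, a v < b v ∧ G.Adj v (a v) ∧ G.Adj v (b v) ∧ G.Adj (a v) (b v)) ∧
      ∀ v w, w ≠ v → w ≠ a v → w ≠ b v →
        (a w ≠ v ∧ a w ≠ a v ∧ a w ≠ b v ∧ b w ≠ v ∧ b w ≠ a v ∧ b w ≠ b v) := by
  obtain ⟨P, hP, hu⟩ := h
  have h1 : ∀ v : Fin n, ∃ a b : Fin n, (a < b ∧ G.Adj v a ∧ G.Adj v b ∧ G.Adj a b) ∧
      ({v, a, b} : Finset (Fin n)) ∈ P := by
    intro v
    obtain ⟨S, ⟨hS, hv⟩, _⟩ := hu v
    obtain ⟨x, y, z, hxy, hxz, hyz, rfl⟩ := is3Clique_iff.1 (hP S hS)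
    have key : ∃ a b : Fin n, (G.Adj v a ∧ G.Adj v b ∧ G.Adj a b) ∧
        ({v, a, b} : Finset (Fin n)) = {x, y, z} := by
      simp only [Finset.mem_insert, Finset.mem_singleton] at hv
      rcases hv with rfl | rfl | rfl
      · exact ⟨y, z, ⟨hxy, hxz, hyz⟩, rfl⟩
      · refine ⟨x, z, ⟨hxy.symm, hyz, hxz⟩, ?_⟩
        ext w; simp only [Finset.mem_insert, Finset.mem_singleton]; tauto
      · refine ⟨x, y, ⟨hxz.symm, hyz.symm, hxy⟩, ?_⟩
        ext w; simp only [Finset.mem_insert, Finset.mem_singleton]; tauto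
    obtain ⟨a, b, ⟨h1, h2, h3⟩, he⟩ := key
    rcases lt_trichotomy a b with hab | hab | hab
    · exact ⟨a, b, ⟨hab, h1, h2, h3⟩, he ▸ hS⟩
    · exact absurd hab h3.ne
    · refine ⟨b, a, ⟨hab, h2, h1, h3.symm⟩, ?_⟩
      have : ({v, b, a} : Finset (Fin n)) = {v, a, b} := by
        ext w; simp only [Finset.mem_insert, Finset.mem_singleton]; tauto
      rw [this]; exact he ▸ hS
  choose a b hab hmem using h1
  refine ⟨a, b, hab, ?_⟩
  intro v w h1 h2 h3
  have hne : ({v, a v, b v} : Finset (Fin n)) ≠ {w, a w, b w} := by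
    intro h
    have : w ∈ ({v, a v, b v} : Finset (Fin n)) := by rw [h]; simp
    simp only [Finset.mem_insert, Finset.mem_singleton] at this
    tauto
  have hd : Disjoint ({v, a v, b v} : Finset (Fin n)) {w, a w, b w} := by
    rw [Finset.disjoint_left]
    intro x hx hx'
    exact hne ((hu x).unique ⟨hmem v, hx⟩ ⟨hmem w, hx'⟩)
  rw [Finset.disjoint_left] at hd
  have hdv := hd (show v ∈ _ by simp)
  have hda := hd (show a v ∈ _ by simp)
  have hdb := hd (show b v ∈ _ by simp)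
  simp only [Finset.mem_insert, Finset.mem_singleton, not_or] at hdv hda hdb
  exact ⟨Ne.symm hdv.2.1, Ne.symm hda.2.1, Ne.symm hdb.2.1, Ne.symm hdv.2.2, Ne.symm hda.2.2,
    Ne.symm hdb.2.2⟩

set_option synthInstance.maxSize 4096 in
lemma no9 : ∀ a b : Fin 9, G₉.Adj 7 a → G₉.Adj 7 b → G₉.Adj a b →
    ∃ y : Fin 9, y ≠ 7 ∧ y ≠ a ∧ y ≠ b ∧ ∀ c d : Fin 9, G₉.Adj y c → G₉.Adj y d → G₉.Adj c d →
      ¬ (c ≠ 7 ∧ c ≠ a ∧ c ≠ b ∧ d ≠ 7 ∧ d ≠ a ∧ d ≠ b) := by decide +kernel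

lemma no_factor : ¬ HasTriangleFactor G₉ := by
  intro h
  obtain ⟨a, b, h1, h2⟩ := factor_triangles h
  obtain ⟨y, hy1, hy2, hy3, hy4⟩ := no9 (a 7) (b 7) (h1 7).2.1 (h1 7).2.2.1 (h1 7).2.2.2
  exact hy4 (a y) (b y) (h1 y).2.1 (h1 y).2.2.1 (h1 y).2.2.2 (h2 7 y hy1 hy2 hy3)

/-! ### A balanced tripartite example -/

/-- The edges of the tripartite example (smaller end first). -/
def edges12 : List (ℕ × ℕ) :=
  [(0, 5), (0, 6), (0, 8), (0, 9), (0, 10), (1, 4), (1, 7), (1, 9), (1, 10), (2, 6), (2, 7),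
    (2, 9), (2, 11), (3, 4), (3, 5), (3, 7), (3, 8), (3, 11), (4, 8), (4, 10), (5, 8), (5, 9),
    (6, 10), (6, 11), (7, 9), (7, 11)]

/-- The tripartite example on twelve vertices. -/
def G₁₂ : SimpleGraph (Fin 12) where
  Adj u v := (u.1, v.1) ∈ edges12 ∨ (v.1, u.1) ∈ edges12
  symm := ⟨fun _ _ h => h.symm⟩
  loopless := ⟨by
    intro u h
    revert u
    decide⟩

instance : DecidableRel G₁₂.Adj := fun u v => by
  unfold G₁₂; infer_instance

lemma tripartite12 : ∀ u v : Fin 12, G₁₂.Adj u v → u.1 / 4 ≠ v.1 / 4 := by decide +kernel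

/-- The map for `t = 2`. -/
def d2 (x : Fin 12 × Fin 2) : Fin 8 :=
  (![![3, 5], ![0, 1], ![4, 6], ![2, 7], ![0, 2], ![5, 7], ![3, 4], ![1, 6], ![2, 7], ![1, 5],
    ![0, 3], ![4, 6]] : Fin 12 → Fin 2 → Fin 8) x.1 x.2

/-- The map for `t = 3`. -/
def d3 (x : Fin 12 × Fin 3) : Fin 12 :=
  (![![4, 7, 8], ![0, 1, 2], ![5, 6, 11], ![3, 9, 10], ![0, 1, 3], ![7, 8, 9], ![4, 5, 6],
    ![2, 10, 11], ![3, 7, 9], ![2, 8, 11], ![0, 1, 4], ![5, 6, 10]] :
    Fin 12 → Fin 3 → Fin 12) x.1 x.2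

lemma fact12_2 : Fact (blowup G₁₂ 2) := ⟨8, d2, by decide +kernel⟩

lemma fact12_3 : Fact (blowup G₁₂ 3) := ⟨12, d3, by decide +kernel⟩

/-- The adjacency matrix of the tripartite example as bit masks. -/
def M12 (u v : Fin 12) : Bool :=
  ((![1888, 1680, 2752, 2480, 1290, 777, 3077, 2574, 57, 167, 83, 204] : Fin 12 → ℕ) u).testBit v.1

lemma adj12 : ∀ u v : Fin 12, G₁₂.Adj u v → M12 u v = true := by decide +kernel

set_option synthInstance.maxSize 4096 in
lemma no12 : ∀ a0 b0 : Fin 12, M12 0 a0 = true → M12 0 b0 = true → M12 a0 b0 = true → a0 < b0 →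
    ∀ a1 b1 : Fin 12, M12 1 a1 = true → M12 1 b1 = true → M12 a1 b1 = true → a1 < b1 →
      a1 ≠ a0 → b1 ≠ b0 →
    ∀ a2 b2 : Fin 12, M12 2 a2 = true → M12 2 b2 = true → M12 a2 b2 = true → a2 < b2 →
      a2 ≠ a0 → b2 ≠ b0 → a2 ≠ a1 → b2 ≠ b1 →
    ∀ a3 b3 : Fin 12, M12 3 a3 = true → M12 3 b3 = true → M12 a3 b3 = true → a3 < b3 →
      ¬ (a3 ≠ a0 ∧ b3 ≠ b0 ∧ a3 ≠ a1 ∧ b3 ≠ b1 ∧ a3 ≠ a2 ∧ b3 ≠ b2) := by
  decide +kernel

lemma no_factor12 : ¬ HasTriangleFactor G₁₂ := by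
  intro h
  obtain ⟨a, b, h1, h2⟩ := factor_triangles h
  have hd : ∀ i j : Fin 12, i.1 / 4 = j.1 / 4 → i ≠ j → a i ≠ a j ∧ b i ≠ b j := by
    intro i j hij hne
    have := h2 j i hne (fun h => tripartite12 _ _ (h1 j).2.1 (by rw [← h, hij]))
      (fun h => tripartite12 _ _ (h1 j).2.2.1 (by rw [← h, hij]))
    exact ⟨this.2.1, this.2.2.2.2.2⟩
  have key := no12 (a 0) (b 0) (adj12 _ _ (h1 0).2.1) (adj12 _ _ (h1 0).2.2.1)
    (adj12 _ _ (h1 0).2.2.2) (h1 0).1
    (a 1) (b 1) (adj12 _ _ (h1 1).2.1) (adj12 _ _ (h1 1).2.2.1)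
    (adj12 _ _ (h1 1).2.2.2) (h1 1).1 (hd 1 0 rfl (by decide)).1 (hd 1 0 rfl (by decide)).2
    (a 2) (b 2) (adj12 _ _ (h1 2).2.1) (adj12 _ _ (h1 2).2.2.1)
    (adj12 _ _ (h1 2).2.2.2) (h1 2).1 (hd 2 0 rfl (by decide)).1 (hd 2 0 rfl (by decide)).2
    (hd 2 1 rfl (by decide)).1 (hd 2 1 rfl (by decide)).2
    (a 3) (b 3) (adj12 _ _ (h1 3).2.1) (adj12 _ _ (h1 3).2.2.1)
    (adj12 _ _ (h1 3).2.2.2) (h1 3).1
  exact key ⟨(hd 3 0 rfl (by decide)).1, (hd 3 0 rfl (by decide)).2,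
    (hd 3 1 rfl (by decide)).1, (hd 3 1 rfl (by decide)).2,
    (hd 3 2 rfl (by decide)).1, (hd 3 2 rfl (by decide)).2⟩

/-- **Main theorem.**  There is a graph on nine vertices without a triangle factor all of whose
blow-ups `G(t)`, `t ≥ 2`, have triangle factors; there is also a balanced tripartite graph with
this property, with parts of size four.  In particular Q1 has a negative answer. -/
theorem result :
    (∃ G : SimpleGraph (Fin 9), ¬ HasTriangleFactor G ∧
      ∀ t : ℕ, 2 ≤ t → HasTriangleFactor (blowup G t)) ∧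
    (∃ G : SimpleGraph (Fin 12), (∀ u v : Fin 12, G.Adj u v → u.1 / 4 ≠ v.1 / 4) ∧
      ¬ HasTriangleFactor G ∧ ∀ t : ℕ, 2 ≤ t → HasTriangleFactor (blowup G t)) ∧
    ¬ (∀ (n : ℕ) (G : SimpleGraph (Fin n)) (t : ℕ), 1 ≤ t →
      HasTriangleFactor (blowup G t) → HasTriangleFactor (blowup G (t + 1)) →
      HasTriangleFactor G) := by
  have h : ∀ t : ℕ, 2 ≤ t → HasTriangleFactor (blowup G₉ t) := by
    intro t ht
    obtain ⟨s, rfl⟩ := Nat.exists_eq_add_of_le' ht
    obtain ⟨k, c, hc⟩ := fact_all fact2 fact3 s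
    exact factor_of_map c hc
  have h' : ∀ t : ℕ, 2 ≤ t → HasTriangleFactor (blowup G₁₂ t) := by
    intro t ht
    obtain ⟨s, rfl⟩ := Nat.exists_eq_add_of_le' ht
    obtain ⟨k, c, hc⟩ := fact_all fact12_2 fact12_3 s
    exact factor_of_map c hc
  refine ⟨⟨G₉, no_factor, h⟩, ⟨G₁₂, tripartite12, no_factor12, h'⟩, ?_⟩
  intro hall
  exact no_factor (hall 9 G₉ 2 (by norm_num) (h 2 le_rfl) (h 3 (by norm_num)))

end Pool.Agent.Results.MP_285f62_co.NineVertexCounterexample
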